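import Pool.Agent.helper99.ZQ.Spec
import Pool.Agent.helper5.ZP.DIM

set_option autoImplicit false

namespace Pool.Agent.ZQ

open Finset
open Pool.Agent.helper32.Cant
open Pool.Agent.GA (nrm chi ch St sg flp Psi rc ph pot rpot far nc gf ncs gfs good mj om pick pat et kap mult)
open Pool.Agent.ZR
open Pool.Agent.ZP
open scoped ENNReal

noncomputable section

lemma FRM_bd (s A : ℝ) (hs : 1 < s) (ν : MeasureTheory.Measure (ℝ × ℝ)) (hF : Fro ν s A) (t : Set (ℝ × ℝ))
    (ht : Metric.ediam t ≤ 1) :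
    ν t ≤ ENNReal.ofReal (max A 0 + 1) * (Metric.ediam t) ^ s := by
  have hs0 : 0 < s := by linarith
  rcases t.eq_empty_or_nonempty with h0 | ⟨x, hx⟩
  · rw [h0]
    simp
  have htop : Metric.ediam t ≠ ⊤ := ne_top_of_le_ne_top ENNReal.one_ne_top ht
  obtain ⟨d, hd⟩ : ∃ d, d = (Metric.ediam t).toReal := ⟨_, rfl⟩
  have hd0 : 0 ≤ d := by
    rw [hd]
    exact ENNReal.toReal_nonneg
  have hed : Metric.ediam t = ENNReal.ofReal d := by rw [hd, ENNReal.ofReal_toReal htop]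
  have hsub : ∀ ρ, d ≤ ρ → t ⊆ Metric.closedBall x ρ := by
    intro ρ hρ y hy
    rw [Metric.mem_closedBall]
    have h1 : edist y x ≤ Metric.ediam t := Metric.edist_le_ediam_of_mem hy hx
    rw [hed, edist_dist] at h1
    have h2 := (ENNReal.ofReal_le_ofReal_iff hd0).mp h1
    linarith
  have hM : (0 : ℝ) ≤ max A 0 + 1 := by linarith [le_max_right A 0]
  have hA : ∀ ρ, 0 < ρ → d ≤ ρ → ν t ≤ ENNReal.ofReal ((max A 0 + 1) * ρ ^ s) := by
    intro ρ hρ hdρ
    calc ν t ≤ ν (Metric.closedBall x ρ) := MeasureTheory.measure_mono (hsub ρ hdρ)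
      _ ≤ ENNReal.ofReal (A * ρ ^ s) := hF x ρ hρ
      _ ≤ ENNReal.ofReal ((max A 0 + 1) * ρ ^ s) := by
        apply ENNReal.ofReal_le_ofReal
        apply mul_le_mul_of_nonneg_right _ (Real.rpow_nonneg hρ.le _)
        linarith [le_max_left A 0]
  rcases hd0.lt_or_eq with h | h
  · have h1 := hA d h le_rfl
    rw [hed, ENNReal.ofReal_rpow_of_pos h, ← ENNReal.ofReal_mul hM]
    exact h1
  · have hlim : Filter.Tendsto (fun ρ : ℝ => ENNReal.ofReal ((max A 0 + 1) * ρ ^ s))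
        (nhdsWithin 0 (Set.Ioi 0)) (nhds 0) := by
      have h1 : Filter.Tendsto (fun ρ : ℝ => (max A 0 + 1) * ρ ^ s) (nhds 0)
          (nhds ((max A 0 + 1) * (0 : ℝ) ^ s)) :=
        ((Real.continuous_rpow_const hs0.le).tendsto 0).const_mul _
      rw [Real.zero_rpow hs0.ne', mul_zero] at h1
      have h2 := (ENNReal.tendsto_ofReal h1).mono_left (nhdsWithin_le_nhds (s := Set.Ioi (0 : ℝ)))
      rwa [ENNReal.ofReal_zero] at h2
    have h3 : ν t ≤ 0 := by
      apply ge_of_tendsto hlim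
      filter_upwards [self_mem_nhdsWithin] with ρ hρ
      exact hA ρ hρ (by rw [← h]; exact (Set.mem_Ioi.mp hρ).le)
    exact h3.trans zero_le

theorem FRM : FRM_stmt := by
  intro C s A hC hs ν hF P hP
  have hs0 : 0 < s - 1 := by linarith
  have h1 := MeasureTheory.Measure.mkMetric_mono (X := ℝ × ℝ) (Pool.Agent.ZP.DIM_ev2 C (s - 1) hC hs0)
  have h2 := h1 P
  rw [hP] at h2
  have he : 1 + (s - 1) = s := by ring
  rw [he] at h2
  obtain ⟨c, hc⟩ : ∃ c, c = ENNReal.ofReal (max A 0 + 1) := ⟨_, rfl⟩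
  have hcpos : c ≠ 0 := by
    rw [hc]
    have : (0 : ℝ) < max A 0 + 1 := by linarith [le_max_right A 0]
    exact (ENNReal.ofReal_pos.mpr this).ne'
  have hctop : c ≠ ⊤ := by
    rw [hc]
    exact ENNReal.ofReal_ne_top
  have h4 : ν ≤ MeasureTheory.Measure.mkMetric (c • fun r : ℝ≥0∞ => r ^ s) := by
    apply MeasureTheory.Measure.le_mkMetric _ ν 1 one_pos
    intro t ht
    have := FRM_bd s A hs ν hF t ht
    rw [← hc] at this
    exact this
  have h5 : (MeasureTheory.Measure.mkMetric (c • fun r : ℝ≥0∞ => r ^ s) : MeasureTheory.Measure (ℝ × ℝ)) ≤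
      c • MeasureTheory.Measure.mkMetric (fun r : ℝ≥0∞ => r ^ s) :=
    MeasureTheory.Measure.mkMetric_mono_smul hctop hcpos (Filter.Eventually.of_forall (fun r => le_rfl))
  have h6 := (h4.trans h5) P
  have h7 : MeasureTheory.Measure.mkMetric (fun r : ℝ≥0∞ => r ^ s) P = 0 := le_antisymm h2 zero_le
  rw [MeasureTheory.Measure.smul_apply, h7, smul_zero] at h6
  exact le_antisymm h6 zero_le

end

end Pool.Agent.ZQ
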